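import Pool.Agent.BEF.Stmts

/-!
# QPW of the squad BEF (problem MP_be01ff_an)

The linear wave.
-/

set_option autoImplicit false

namespace Pool.Agent.BEF.H69

open Set Filter Topology MeasureTheory
open scoped InnerProductSpace
open Pool.Agent.BE01 Pool.Agent.BEF

theorem gen_cos {κ : Type} [Fintype κ] {M : Type} [NormedAddCommGroup M] [NormedSpace ℝ M]
    (k : κ) (m : M) : (fun (ψ : ℝ) (z : κ → ℝ) => (z k * Real.cos ψ) • m) ∈ HG κ M 1 := by
  refine Submodule.subset_span ⟨MvPolynomial.X k, 1, 0, m, MvPolynomial.isHomogeneous_X ℝ k,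
    rfl, Or.inl ?_⟩
  funext ψ z
  rw [MvPolynomial.eval_X, Nat.cast_one, one_mul]

theorem gen_sin {κ : Type} [Fintype κ] {M : Type} [NormedAddCommGroup M] [NormedSpace ℝ M]
    (k : κ) (m : M) : (fun (ψ : ℝ) (z : κ → ℝ) => (z k * Real.sin ψ) • m) ∈ HG κ M 1 := by
  refine Submodule.subset_span ⟨MvPolynomial.X k, 1, 0, m, MvPolynomial.isHomogeneous_X ℝ k,
    rfl, Or.inr ?_⟩
  funext ψ z
  rw [MvPolynomial.eval_X, Nat.cast_one, one_mul]

theorem orth_sq {H : Type} [NormedAddCommGroup H] [InnerProductSpace ℝ H] {m : ℕ}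
    {φ : Fin m → H} (hφ : Orthonormal ℝ φ) (a : Fin m → ℝ) :
    ‖∑ i, a i • φ i‖ ^ 2 = ∑ i, a i ^ 2 := by
  rw [← real_inner_self_eq_norm_sq, hφ.inner_sum]
  refine Finset.sum_congr rfl fun i _ => ?_
  simp [sq]

/-- QPW. -/
theorem qpw : QpwStmt := by
  intro H _ _ m φ F
  refine ⟨?_, ?_, ?_, ?_, ?_, ?_, ?_⟩
  · have e : qw φ = ∑ i : Fin m, ((fun (ψ : ℝ) (z : Fin m ⊕ Fin m → ℝ) =>
        (z (Sum.inl i) * Real.cos ψ) • φ i) + fun (ψ : ℝ) (z : Fin m ⊕ Fin m → ℝ) =>
        (z (Sum.inr i) * Real.sin ψ) • φ i) := by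
      funext ψ z
      simp only [qw, Finset.sum_apply, Pi.add_apply, add_smul]
    rw [e]
    exact Submodule.sum_mem _ fun i _ => Submodule.add_mem _ (gen_cos _ _) (gen_sin _ _)
  · have e : pw φ = ∑ i : Fin m, ((fun (ψ : ℝ) (z : Fin m ⊕ Fin m → ℝ) =>
        (z (Sum.inr i) * Real.cos ψ) • φ i) - fun (ψ : ℝ) (z : Fin m ⊕ Fin m → ℝ) =>
        (z (Sum.inl i) * Real.sin ψ) • φ i) := by
      funext ψ z
      simp only [pw, Finset.sum_apply, Pi.sub_apply, sub_smul]
    rw [e]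
    exact Submodule.sum_mem _ fun i _ => Submodule.sub_mem _ (gen_cos _ _) (gen_sin _ _)
  · funext ψ z
    unfold dp
    have h : HasDerivAt (fun s => qw φ s z) (pw φ ψ z) ψ := by
      unfold qw pw
      refine HasDerivAt.fun_sum fun i _ => ?_
      have h1 := ((Real.hasDerivAt_cos ψ).const_mul (z (Sum.inl i))).add
        ((Real.hasDerivAt_sin ψ).const_mul (z (Sum.inr i)))
      have h2 := h1.smul_const (φ i)
      have e : z (Sum.inl i) * -Real.sin ψ + z (Sum.inr i) * Real.cos ψ =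
          z (Sum.inr i) * Real.cos ψ - z (Sum.inl i) * Real.sin ψ := by ring
      rw [e] at h2
      exact h2
    exact h.deriv
  · funext ψ z
    unfold dp
    have h : HasDerivAt (fun s => pw φ s z) ((-qw φ) ψ z) ψ := by
      have e0 : (-qw φ) ψ z = ∑ i, (-(z (Sum.inl i) * Real.cos ψ + z (Sum.inr i) *
          Real.sin ψ)) • φ i := by
        simp only [Pi.neg_apply, qw, neg_smul, Finset.sum_neg_distrib]
      rw [e0]
      unfold pw
      refine HasDerivAt.fun_sum fun i _ => ?_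
      have h1 := ((Real.hasDerivAt_cos ψ).const_mul (z (Sum.inr i))).sub
        ((Real.hasDerivAt_sin ψ).const_mul (z (Sum.inl i)))
      have h2 := h1.smul_const (φ i)
      have e : z (Sum.inr i) * -Real.sin ψ - z (Sum.inl i) * Real.cos ψ =
          -(z (Sum.inl i) * Real.cos ψ + z (Sum.inr i) * Real.sin ψ) := by ring
      rw [e] at h2
      exact h2
    exact h.deriv
  · intro ψ z
    obtain ⟨L, hL⟩ : ∃ L : (Fin m ⊕ Fin m → ℝ) →L[ℝ] H, ∀ z, L z = qw φ ψ z := by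
      refine ⟨∑ i, (Real.cos ψ • (ContinuousLinearMap.proj (Sum.inl i) :
        (Fin m ⊕ Fin m → ℝ) →L[ℝ] ℝ) + Real.sin ψ • (ContinuousLinearMap.proj (Sum.inr i) :
        (Fin m ⊕ Fin m → ℝ) →L[ℝ] ℝ)).smulRight (φ i), ?_⟩
      intro z
      rw [ContinuousLinearMap.sum_apply]
      unfold qw
      refine Finset.sum_congr rfl fun i _ => ?_
      simp [mul_comm]
    have e : qw φ ψ = ⇑L := by
      funext z
      exact (hL z).symm
    unfold dv
    rw [e, L.fderiv]
  · intro ψ z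
    obtain ⟨L, hL⟩ : ∃ L : (Fin m ⊕ Fin m → ℝ) →L[ℝ] H, ∀ z, L z = pw φ ψ z := by
      refine ⟨∑ i, (Real.cos ψ • (ContinuousLinearMap.proj (Sum.inr i) :
        (Fin m ⊕ Fin m → ℝ) →L[ℝ] ℝ) - Real.sin ψ • (ContinuousLinearMap.proj (Sum.inl i) :
        (Fin m ⊕ Fin m → ℝ) →L[ℝ] ℝ)).smulRight (φ i), ?_⟩
      intro z
      rw [ContinuousLinearMap.sum_apply]
      unfold pw
      refine Finset.sum_congr rfl fun i _ => ?_
      simp [mul_comm]
    have e : pw φ ψ = ⇑L := by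
      funext z
      exact (hL z).symm
    unfold dv
    rw [e, L.fderiv]
  · intro hφ ψ z
    unfold qw pw
    rw [orth_sq hφ, orth_sq hφ, Fintype.sum_sum_type, ← Finset.sum_add_distrib,
      ← Finset.sum_add_distrib]
    refine Finset.sum_congr rfl fun i _ => ?_
    have h := Real.sin_sq_add_cos_sq ψ
    linear_combination (z (Sum.inl i) ^ 2 + z (Sum.inr i) ^ 2) * h

end Pool.Agent.BEF.H69
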