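import Pool.Agent.BEF.Stmts

/-!
# TRU of the squad BEF (problem MP_be01ff_an)

Truncation of a polynomial vector field.
-/

set_option autoImplicit false

namespace Pool.Agent.BEF.H69

open Set Filter Topology MeasureTheory
open scoped NNReal
open Pool.Agent.BE01 Pool.Agent.BEF

/-- Lipschitz and bounded. -/
def BL {E : Type} [PseudoMetricSpace E] (f : E → ℝ) : Prop :=
  ∃ K L : ℝ≥0, LipschitzWith K f ∧ ∀ z, |f z| ≤ L

theorem BL.add {E : Type} [PseudoMetricSpace E] {f g : E → ℝ} (hf : BL f) (hg : BL g) :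
    BL fun z => f z + g z := by
  obtain ⟨K1, L1, h1, b1⟩ := hf
  obtain ⟨K2, L2, h2, b2⟩ := hg
  refine ⟨K1 + K2, L1 + L2, h1.add h2, fun z => ?_⟩
  rw [NNReal.coe_add]
  exact (abs_add_le _ _).trans (add_le_add (b1 z) (b2 z))

theorem BL.mul {E : Type} [PseudoMetricSpace E] {f g : E → ℝ} (hf : BL f) (hg : BL g) :
    BL fun z => f z * g z := by
  obtain ⟨K1, L1, h1, b1⟩ := hf
  obtain ⟨K2, L2, h2, b2⟩ := hg
  refine ⟨L1 * K2 + L2 * K1, L1 * L2, LipschitzWith.of_dist_le_mul fun x y => ?_, fun z => ?_⟩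
  · have e1 := h1.dist_le_mul x y
    have e2 := h2.dist_le_mul x y
    rw [Real.dist_eq] at e1 e2 ⊢
    have e3 : f x * g x - f y * g y = f x * (g x - g y) + g y * (f x - f y) := by ring
    rw [e3]
    refine (abs_add_le _ _).trans ?_
    rw [abs_mul, abs_mul]
    have e4 : |f x| * |g x - g y| ≤ L1 * (K2 * dist x y) :=
      mul_le_mul (b1 x) e2 (abs_nonneg _) L1.coe_nonneg
    have e5 : |g y| * |f x - f y| ≤ L2 * (K1 * dist x y) :=
      mul_le_mul (b2 y) e1 (abs_nonneg _) L2.coe_nonneg
    push_cast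
    linarith
  · rw [abs_mul, NNReal.coe_mul]
    exact mul_le_mul (b1 z) (b2 z) (abs_nonneg _) L1.coe_nonneg

theorem BL.clamp {κ : Type} [Fintype κ] (i : κ) :
    BL fun z : κ → ℝ => max (-1) (min 1 (z i)) := by
  refine ⟨1, 1, ((LipschitzWith.eval i).const_min 1).const_max (-1), fun z => ?_⟩
  rw [abs_le]
  refine ⟨by simp, ?_⟩
  simp

theorem BL.poly {κ : Type} [Fintype κ] (f : MvPolynomial κ ℝ) :
    BL fun z : κ → ℝ => MvPolynomial.eval (fun i => max (-1) (min 1 (z i))) f := by
  induction f using MvPolynomial.induction_on with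
  | C a =>
    refine ⟨0, ‖a‖₊, ?_, fun z => ?_⟩
    · simp only [MvPolynomial.eval_C]
      exact LipschitzWith.const a
    · simp only [MvPolynomial.eval_C]
      exact le_rfl
  | add p q hp hq =>
    simp only [map_add]
    exact hp.add hq
  | mul_X p i hp =>
    simp only [map_mul, MvPolynomial.eval_X]
    exact hp.mul (BL.clamp i)

/-- TRU. -/
theorem tru : TruStmt := by
  intro κ _ F
  have h := fun i => BL.poly (F i)
  choose K L hK hL using h
  refine ⟨fun z => vf F (fun i => max (-1) (min 1 (z i))), ∑ i, K i, ∑ i, (L i : ℝ), ?_, ?_, ?_⟩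
  · refine LipschitzWith.of_dist_le_mul fun x y => ?_
    rw [dist_pi_le_iff (by positivity)]
    intro i
    refine ((hK i).dist_le_mul x y).trans ?_
    refine mul_le_mul_of_nonneg_right ?_ dist_nonneg
    exact_mod_cast Finset.single_le_sum (f := K) (fun j _ => bot_le) (Finset.mem_univ i)
  · intro z
    rw [pi_norm_le_iff_of_nonneg (Finset.sum_nonneg fun i _ => (L i).coe_nonneg)]
    intro i
    refine (hL i z).trans ?_
    exact Finset.single_le_sum (f := fun i => (L i : ℝ)) (fun j _ => (L j).coe_nonneg)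
      (Finset.mem_univ i)
  · intro z hz
    have e : (fun i => max (-1) (min 1 (z i))) = z := by
      funext i
      have h1 := (norm_le_pi_norm z i).trans hz
      rw [Real.norm_eq_abs, abs_le] at h1
      rw [min_eq_right h1.2, max_eq_right h1.1]
    change vf F (fun i => max (-1) (min 1 (z i))) = vf F z
    rw [e]

end Pool.Agent.BEF.H69
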